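import Mathlib
import Pool.Agent.H47.TCF.Factor
import Pool.Agent.H47.TCF.Chain

/-!
An even cycle of a colour-changing map, the parity of the number of cycles of a permutation, and
2-factors from permutations.
-/

set_option linter.unusedSectionVars false

namespace Pool.Agent.H10.EP

open Equiv Equiv.Perm Pool.Agent.H47.TCF

variable {α : Type} [Fintype α] [DecidableEq α]

theorem exists_odd_perm [Nonempty α] (f : α → α) (col : α → Bool) (W : Set α)
    (hW : ∀ x, f x ∈ W) (hcol : ∀ x ∈ W, col (f x) ≠ col x) :
    ∃ ρ : Perm α, sign ρ = -1 ∧ ∀ x, ρ x = x ∨ (x ∈ W ∧ ρ x = f x) := by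
  classical
  set P := Function.periodicPts f with hP
  have hPW : ∀ x ∈ P, x ∈ W := by
    intro x hx
    obtain ⟨m, hm, hx⟩ := hx
    obtain ⟨k, rfl⟩ : ∃ k, m = k + 1 := ⟨m - 1, by omega⟩
    have h1 : f (f^[k] x) = x := by
      rw [← Function.iterate_succ_apply' f]
      exact hx
    rw [← h1]
    exact hW _
  have hbij := Function.bijOn_periodicPts f
  obtain ⟨a⟩ := (inferInstance : Nonempty α)
  obtain ⟨i, j, hij, hne⟩ := Finite.exists_ne_map_eq_of_infinite (fun i : ℕ => f^[i] a)
  have hx0 : ∃ x, x ∈ P := by
    rcases lt_or_gt_of_ne hij with h | h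
    · refine ⟨f^[i] a, j - i, by omega, ?_⟩
      change f^[j - i] (f^[i] a) = f^[i] a
      rw [← Function.iterate_add_apply, Nat.sub_add_cancel h.le]
      exact hne.symm
    · refine ⟨f^[j] a, i - j, by omega, ?_⟩
      change f^[i - j] (f^[j] a) = f^[j] a
      rw [← Function.iterate_add_apply, Nat.sub_add_cancel h.le]
      exact hne
  obtain ⟨x, hx⟩ := hx0
  let g : α → α := fun y => if y ∈ P then f y else y
  have hg1 : ∀ y ∈ P, g y = f y := fun y hy => if_pos hy
  have hg2 : ∀ y, y ∉ P → g y = y := fun y hy => if_neg hy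
  have hinj : Function.Injective g := by
    intro y z hyz
    by_cases hy : y ∈ P <;> by_cases hz : z ∈ P
    · rw [hg1 y hy, hg1 z hz] at hyz
      exact hbij.injOn hy hz hyz
    · rw [hg1 y hy, hg2 z hz] at hyz
      exact absurd (hyz ▸ hbij.mapsTo hy) hz
    · rw [hg2 y hy, hg1 z hz] at hyz
      exact absurd (hyz.symm ▸ hbij.mapsTo hz) hy
    · rw [hg2 y hy, hg2 z hz] at hyz
      exact hyz
  let ρ0 : Perm α := Equiv.ofBijective g (Finite.injective_iff_bijective.1 hinj)
  have hρ0 : ∀ y, ρ0 y = g y := fun y => rfl
  have hxne : ρ0 x ≠ x := by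
    rw [hρ0, hg1 x hx]
    intro h
    apply hcol x (hPW x hx)
    rw [h]
  set ρ := ρ0.cycleOf x with hρ
  have hcyc : ρ.IsCycle := isCycle_cycleOf _ hxne
  have hflip : ∀ y ∈ ρ.support, y ∈ W ∧ ρ y = f y ∧ col (ρ y) ≠ col y := by
    intro y hy
    have h1 : SameCycle ρ0 x y := by
      by_contra h
      rw [mem_support, hρ, cycleOf_apply_of_not_sameCycle h] at hy
      exact hy rfl
    have h2 : ρ y = ρ0 y := h1.cycleOf_apply
    have h3 : ρ0 y ≠ y := by rw [← h2]; exact mem_support.1 hy
    have h4 : y ∈ P := by
      by_contra h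
      exact h3 (by rw [hρ0, hg2 y h])
    have h5 : ρ y = f y := by rw [h2, hρ0, hg1 y h4]
    exact ⟨hPW y h4, h5, by rw [h5]; exact hcol y (hPW y h4)⟩
  refine ⟨ρ, ?_, ?_⟩
  · rw [hcyc.sign]
    have hle : ∀ b : Bool, (ρ.support.filter (fun y => col y = b)).card ≤
        (ρ.support.filter (fun y => col y = !b)).card := by
      intro b
      apply Finset.card_le_card_of_injOn ρ
      · intro y hy
        simp only [Finset.coe_filter, Set.mem_ofPred_eq] at hy ⊢
        refine ⟨apply_mem_support.2 hy.1, ?_⟩
        have h1 := (hflip y hy.1).2.2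
        rw [hy.2] at h1
        cases h2 : col (ρ y) <;> cases b <;> simp_all
      · intro y _ z _ h
        exact ρ.injective h
    have h1 := hle true
    have h2 := hle false
    simp only [Bool.not_true, Bool.not_false] at h1 h2
    have h3 := Finset.card_filter_add_card_filter_not (s := ρ.support) (fun y => col y = true)
    simp only [Bool.not_eq_true] at h3
    have h4 : Even ρ.support.card := ⟨(ρ.support.filter (fun y => col y = true)).card, by omega⟩
    rw [h4.neg_one_pow]
  · intro y
    by_cases hy : y ∈ ρ.support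
    · right
      exact ⟨(hflip y hy).1, (hflip y hy).2.1⟩
    · left
      exact notMem_support.1 hy

theorem nc_parity (ρ φ : Perm α) : (-1 : ℤˣ) ^ nc (ρ * φ) = sign ρ * (-1) ^ nc φ := by
  induction ρ using Equiv.Perm.swap_induction_on with
  | one => simp
  | swap_mul g x y hxy ih =>
    rw [mul_assoc, Perm.sign_mul, sign_swap hxy, mul_assoc, ← ih]
    by_cases h : SameCycle (g * φ) x y
    · rw [nc_split hxy h, pow_succ, mul_comm]
    · rw [nc_merge h, pow_succ, mul_comm, mul_assoc]
      simp

theorem nc_nx {n : ℕ} [NeZero n] : nc (nx n) = 1 := by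
  apply nc_eq_one
  have h0 : ∀ k : ℕ, ∀ x : Fin n, SameCycle (nx n) x (x + Fin.ofNat n k) := by
    intro k
    induction k with
    | zero =>
      intro x
      have : Fin.ofNat n 0 = 0 := by apply Fin.ext; simp
      rw [this, add_zero]
    | succ k ih =>
      intro x
      refine (ih x).trans ?_
      refine ⟨1, ?_⟩
      rw [zpow_one, nx_apply, add_assoc]
      congr 1
      apply Fin.ext
      simp [Fin.val_add]
  intro x y
  have h1 := h0 (y - x).val x
  have h2 : Fin.ofNat n (y - x).val = y - x := by
    apply Fin.ext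
    rw [Fin.val_ofNat, Nat.mod_eq_of_lt (y - x).isLt]
  rw [h2, add_sub_cancel] at h1
  exact h1

theorem exists_twoFactor' {V : Type} (G : SimpleGraph V) (φ : Perm α) (v : α ≃ V)
    (hG : ∀ k, G.Adj (v k) (v (φ k))) (h2 : ∀ k, φ (φ k) ≠ k) :
    ∃ F : SimpleGraph V, F ≤ G ∧ (∀ x, (F.neighborSet x).ncard = 2) ∧
      Nat.card F.ConnectedComponent = nc φ := by
  have hne : ∀ k, φ k ≠ k := fun k h => G.ne_of_adj (hG k) (by rw [h])
  refine ⟨permGraph φ v hne, ?_, ?_, ?_⟩
  · intro x y h
    rcases h with h | h
    · have := hG (v.symm x)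
      rw [h, Equiv.apply_symm_apply, Equiv.apply_symm_apply] at this
      exact this
    · have := hG (v.symm y)
      rw [h, Equiv.apply_symm_apply, Equiv.apply_symm_apply] at this
      exact this.symm
  · intro x
    have h1 : (permGraph φ v hne).neighborSet x = {v (φ (v.symm x)), v (φ.symm (v.symm x))} := by
      ext y
      rw [SimpleGraph.mem_neighborSet]
      simp only [Set.mem_insert_iff, Set.mem_singleton_iff]
      constructor
      · rintro (h | h)
        · left; rw [h, Equiv.apply_symm_apply]
        · right; rw [← h, Equiv.symm_apply_apply, Equiv.apply_symm_apply]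
      · rintro (h | h)
        · left; rw [h, Equiv.symm_apply_apply]
        · right; rw [h, Equiv.symm_apply_apply, Equiv.apply_symm_apply]
    rw [h1, Set.ncard_pair]
    intro h
    have h3 := v.injective h
    apply h2 (φ.symm (v.symm x))
    rw [Equiv.apply_symm_apply]
    exact h3
  · unfold nc
    apply Nat.card_congr
    have hreach : ∀ x y : V, (permGraph φ v hne).Reachable x y ↔
        SameCycle φ (v.symm x) (v.symm y) := by
      intro x y
      constructor
      · rintro ⟨p⟩
        induction p with
        | nil => exact SameCycle.refl _ _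
        | cons h _ ih =>
          refine SameCycle.trans ?_ ih
          rcases h with h | h
          · rw [← h, sameCycle_apply_right]
          · rw [← h, sameCycle_apply_left]
      · intro h
        obtain ⟨i, _, hi⟩ := h.exists_pow_eq'
        have key : ∀ (i : ℕ) (x : V), (permGraph φ v hne).Reachable x (v ((φ ^ i) (v.symm x))) := by
          intro i
          induction i with
          | zero => intro x; simp
          | succ i ih =>
            intro x
            refine (ih x).trans (SimpleGraph.Adj.reachable ?_)
            left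
            rw [Equiv.symm_apply_apply, Equiv.symm_apply_apply, pow_succ', mul_apply]
        have h3 := key i x
        rw [hi, Equiv.apply_symm_apply] at h3
        exact h3
    exact Quot.congr v.symm hreach

end Pool.Agent.H10.EP
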